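import Pool.Agent.H70.LZ.Stm

/-!
`γ m` is generated modulo `γ (m+1)` by left normed commutators of generators.
-/

set_option autoImplicit false

open Finset
open scoped commutatorElement

namespace H60.LZ

open H70.LZ

theorem gm_succ (Γ : Type) [Group Γ] (m : ℕ) : gm Γ (m + 1) = ⁅gm Γ m, (⊤ : Subgroup Γ)⁆ := rfl

theorem gm_zero (Γ : Type) [Group Γ] : gm Γ 0 = ⊤ := rfl

theorem gc_append' {Γ X : Type} [Group Γ] (f : X → Γ) (w : List X) (hw : w ≠ []) (b : X) :
    gc f (w ++ [b]) = ⁅gc f w, f b⁆ := by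
  cases w with
  | nil => exact absurd rfl hw
  | cons a l => simp [gc, List.foldl_append]

theorem gc_mem {Γ X : Type} [Group Γ] (f : X → Γ) : ∀ (m : ℕ) (w : List X), w.length = m + 1 →
    gc f w ∈ gm Γ m := by
  intro m
  induction m with
  | zero => intro w _; rw [gm_zero]; exact Subgroup.mem_top _
  | succ m ih =>
    intro w hw
    rcases List.eq_nil_or_concat w with rfl | ⟨l, b, rfl⟩
    · simp at hw
    · rw [List.concat_eq_append, List.length_append, List.length_singleton] at hw
      have hl : l.length = m + 1 := by omega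
      have hl' : l ≠ [] := by rintro rfl; simp at hl
      rw [List.concat_eq_append, gc_append' f l hl' b, gm_succ]
      exact Subgroup.commutator_mem_commutator (ih l hl) (Subgroup.mem_top _)

theorem t_GEN (hCID : S_CID) : S_GEN := by
  intro Γ _ X f hf m
  induction m with
  | zero =>
    refine le_trans ?_ le_sup_left
    rw [gm_zero, ← hf, Subgroup.closure_le]
    rintro _ ⟨a, rfl⟩
    exact Subgroup.subset_closure ⟨[a], rfl, rfl⟩
  | succ m ih =>
    set T : Subgroup Γ := Subgroup.closure {g | ∃ w : List X, w.length = m + 1 + 1 ∧ g = gc f w} ⊔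
      gm Γ (m + 1 + 1) with hT
    have hTg : gm Γ (m + 1 + 1) ≤ T := le_sup_right
    have hTw : ∀ w : List X, w.length = m + 1 + 1 → gc f w ∈ T := fun w hw =>
      (le_sup_left : Subgroup.closure {g | ∃ w : List X, w.length = m + 1 + 1 ∧ g = gc f w} ≤ T)
        (Subgroup.subset_closure ⟨w, hw, rfl⟩)
    have c1 : ∀ a ∈ gm Γ m, ∀ a' ∈ gm Γ m, ∀ b : Γ, ⁅a, b⁆ ∈ T → ⁅a', b⁆ ∈ T → ⁅a * a', b⁆ ∈ T := by
      intro a ha a' ha' b h1 h2
      have h := hTg ((hCID Γ m 0 0).1 a ha a' ha' b (Subgroup.mem_top _))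
      have h3 := T.mul_mem h (T.mul_mem h1 h2)
      rwa [inv_mul_cancel_right] at h3
    have c1i : ∀ a ∈ gm Γ m, ∀ b : Γ, ⁅a, b⁆ ∈ T → ⁅a⁻¹, b⁆ ∈ T := by
      intro a ha b h1
      have h := hTg ((hCID Γ m 0 0).1 a ha a⁻¹ ((gm Γ m).inv_mem ha) b (Subgroup.mem_top _))
      rw [mul_inv_cancel, commutatorElement_one_left, one_mul] at h
      have h2 := T.inv_mem h
      rw [inv_inv] at h2
      have h3 := T.mul_mem (T.inv_mem h1) h2
      rwa [inv_mul_cancel_left] at h3
    have c2 : ∀ a ∈ gm Γ m, ∀ b b' : Γ, ⁅a, b⁆ ∈ T → ⁅a, b'⁆ ∈ T → ⁅a, b * b'⁆ ∈ T := by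
      intro a ha b b' h1 h2
      have h := hTg ((hCID Γ m 0 0).2.1 a ha b (Subgroup.mem_top _) b' (Subgroup.mem_top _))
      have h3 := T.mul_mem h (T.mul_mem h1 h2)
      rwa [inv_mul_cancel_right] at h3
    have c2i : ∀ a ∈ gm Γ m, ∀ b : Γ, ⁅a, b⁆ ∈ T → ⁅a, b⁻¹⁆ ∈ T := by
      intro a ha b h1
      have h := hTg ((hCID Γ m 0 0).2.1 a ha b (Subgroup.mem_top _) b⁻¹ (Subgroup.mem_top _))
      rw [mul_inv_cancel, commutatorElement_one_right, one_mul] at h
      have h2 := T.inv_mem h
      rw [inv_inv] at h2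
      have h3 := T.mul_mem (T.inv_mem h1) h2
      rwa [inv_mul_cancel_left] at h3
    have w1 : ∀ w : List X, w.length = m + 1 → ∀ b : Γ, ⁅gc f w, b⁆ ∈ T := by
      intro w hw b
      have hg := gc_mem f m w hw
      have hb : b ∈ Subgroup.closure (Set.range f) := by rw [hf]; exact Subgroup.mem_top _
      induction hb using Subgroup.closure_induction with
      | mem y hy =>
        obtain ⟨x, rfl⟩ := hy
        have hw' : w ≠ [] := by rintro rfl; simp at hw
        rw [← gc_append' f w hw' x]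
        exact hTw _ (by rw [List.length_append, hw, List.length_singleton])
      | one => rw [commutatorElement_one_right]; exact T.one_mem
      | mul y z _ _ hy hz => exact c2 _ hg y z hy hz
      | inv y _ hy => exact c2i _ hg y hy
    rw [gm_succ, Subgroup.commutator_le]
    intro a ha b _
    have ha' := ih ha
    rw [← Subgroup.closure_eq (gm Γ (m + 1)), ← Subgroup.closure_union] at ha'
    clear ha
    have key : a ∈ gm Γ m ∧ ⁅a, b⁆ ∈ T := by
      induction ha' using Subgroup.closure_induction with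
      | mem y hy =>
        rcases hy with ⟨w, hw, rfl⟩ | hy
        · exact ⟨gc_mem f m w hw, w1 w hw b⟩
        · refine ⟨(⊤ : Subgroup Γ).lowerCentralSeries_antitone (Nat.le_succ m) hy, hTg ?_⟩
          rw [gm_succ]
          exact Subgroup.commutator_mem_commutator hy (Subgroup.mem_top _)
      | one => exact ⟨Subgroup.one_mem _, by rw [commutatorElement_one_left]; exact T.one_mem⟩
      | mul y z _ _ hy hz =>
        exact ⟨Subgroup.mul_mem _ hy.1 hz.1, c1 y hy.1 z hz.1 b hy.2 hz.2⟩
      | inv y _ hy => exact ⟨Subgroup.inv_mem _ hy.1, c1i y hy.1 b hy.2⟩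
    exact key.2

end H60.LZ
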