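import Pool.Agent.H70.LZ.Stm

/-!
Group commutators versus ring commutators in `1 + F 1`.
-/

set_option autoImplicit false

open Finset
open scoped commutatorElement

namespace H60.LZ

open H70.LZ

section

variable {R S : Type} [CommRing R] [Ring S] [Algebra R S] {c : ℕ} (A : Fil R S c)

theorem anti' {i j : ℕ} (h : i ≤ j) : A.F j ≤ A.F i :=
  antitone_nat_of_succ_le A.anti h

theorem pow_mem' {a : S} (ha : a ∈ A.F 1) (n : ℕ) : a ^ n ∈ A.F n := by
  induction n with
  | zero => simpa using A.one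
  | succ n ih => rw [pow_succ]; exact A.mul _ _ _ _ ih ha

theorem inv_mem {g : Sˣ} (hg : (g : S) - 1 ∈ A.F 1) : ((g⁻¹ : Sˣ) : S) ∈ A.F 0 := by
  set a : S := (g : S) - 1 with ha
  have hga : (g : S) = 1 + a := by rw [ha]; abel
  have hna : -a ∈ A.F 1 := (A.F 1).neg_mem hg
  have h0 : (-a) ^ (c + 1) = 0 := by
    have := pow_mem' A hna (c + 1)
    rw [A.bot] at this
    simpa using this
  have h1 : (g : S) * ∑ i ∈ range (c + 1), (-a) ^ i = 1 := by
    have := mul_neg_geom_sum (-a) (c + 1)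
    rw [h0, sub_zero, sub_neg_eq_add] at this
    rw [hga]
    exact this
  have h2 : ((g⁻¹ : Sˣ) : S) = ∑ i ∈ range (c + 1), (-a) ^ i := by
    calc ((g⁻¹ : Sˣ) : S) = ((g⁻¹ : Sˣ) : S) * ((g : S) * ∑ i ∈ range (c + 1), (-a) ^ i) := by
          rw [h1, mul_one]
      _ = _ := by rw [Units.inv_mul_cancel_left]
  rw [h2]
  exact Submodule.sum_mem _ fun i _ => anti' A (Nat.zero_le i) (pow_mem' A hna i)

theorem inv_sub {g : Sˣ} (hg : (g : S) - 1 ∈ A.F 1) : ((g⁻¹ : Sˣ) : S) - 1 ∈ A.F 1 := by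
  have h : ((g⁻¹ : Sˣ) : S) - 1 = -(((g⁻¹ : Sˣ) : S) * ((g : S) - 1)) := by
    rw [mul_sub, Units.inv_mul]
    simp
  rw [h]
  have := A.mul 0 1 _ _ (inv_mem A hg) hg
  rw [zero_add] at this
  exact (A.F 1).neg_mem this

theorem cm_mem {i j : ℕ} {a b : S} (ha : a ∈ A.F i) (hb : b ∈ A.F j) : cm a b ∈ A.F (i + j) := by
  unfold cm
  refine (A.F (i + j)).sub_mem (A.mul _ _ _ _ ha hb) ?_
  rw [add_comm]
  exact A.mul _ _ _ _ hb ha

theorem comm_eq (g h : Sˣ) :
    ((⁅g, h⁆ : Sˣ) : S) - 1 = cm ((g : S) - 1) ((h : S) - 1) * (((g⁻¹ : Sˣ) : S) * ((h⁻¹ : Sˣ) : S)) := by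
  have h1 : cm ((g : S) - 1) ((h : S) - 1) = (g : S) * h - h * g := by
    unfold cm
    noncomm_ring
  rw [h1, commutatorElement_def, Units.val_mul, Units.val_mul, Units.val_mul, sub_mul]
  congr 1
  · rw [mul_assoc]
  · rw [mul_assoc, Units.mul_inv_cancel_left, Units.mul_inv]

theorem comm_sub {i : ℕ} (hi : 1 ≤ i) {g h : Sˣ} (hg : (g : S) - 1 ∈ A.F i) (hh : (h : S) - 1 ∈ A.F 1) :
    ((⁅g, h⁆ : Sˣ) : S) - 1 - cm ((g : S) - 1) ((h : S) - 1) ∈ A.F (i + 1 + 1) := by
  have hg1 := anti' A hi hg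
  have h1 : ((⁅g, h⁆ : Sˣ) : S) - 1 - cm ((g : S) - 1) ((h : S) - 1) =
      cm ((g : S) - 1) ((h : S) - 1) *
        ((((g⁻¹ : Sˣ) : S) - 1) * ((h⁻¹ : Sˣ) : S) + (((h⁻¹ : Sˣ) : S) - 1)) := by
    rw [comm_eq]
    noncomm_ring
  rw [h1]
  refine A.mul _ _ _ _ (cm_mem A hg hh) ((A.F 1).add_mem ?_ (inv_sub A hh))
  have := A.mul 1 0 _ _ (inv_sub A hg1) (inv_mem A hh)
  simpa using this

theorem comm_mem {i : ℕ} (hi : 1 ≤ i) {g h : Sˣ} (hg : (g : S) - 1 ∈ A.F i) (hh : (h : S) - 1 ∈ A.F 1) :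
    ((⁅g, h⁆ : Sˣ) : S) - 1 ∈ A.F (i + 1) := by
  have h1 := anti' A (Nat.le_succ (i + 1)) (comm_sub A hi hg hh)
  have h2 := (A.F (i + 1)).add_mem h1 (cm_mem A hg hh)
  simpa using h2

end

theorem gc_append {Γ X : Type} [Group Γ] (f : X → Γ) (w : List X) (hw : w ≠ []) (b : X) :
    gc f (w ++ [b]) = ⁅gc f w, f b⁆ := by
  cases w with
  | nil => exact absurd rfl hw
  | cons a l => simp [gc, List.foldl_append]

theorem rc_append {S X : Type} [Ring S] (x : X → S) (w : List X) (hw : w ≠ []) (b : X) :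
    rc x (w ++ [b]) = cm (rc x w) (x b) := by
  cases w with
  | nil => exact absurd rfl hw
  | cons a l => simp [rc, List.foldl_append]

theorem t_MAG : S_MAG := by
  intro R S _ _ _ c A X x f hx hf
  refine ⟨fun g hg => inv_sub A hg, fun i hi g h hg hh => comm_mem A hi hg hh, ?_⟩
  have hf1 : ∀ j, (f j : S) - 1 = x j := fun j => by rw [hf j]; abel
  have key : ∀ w : List X, w ≠ [] → rc x w ∈ A.F w.length ∧
      ((gc f w : Sˣ) : S) - 1 - rc x w ∈ A.F (w.length + 1) := by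
    intro w
    induction w using List.reverseRecOn with
    | nil => exact fun h => absurd rfl h
    | append_singleton l b ih =>
      intro _
      by_cases hl : l = []
      · subst hl
        have h1 : rc x ([] ++ [b]) = x b := rfl
        have h2 : gc f ([] ++ [b]) = f b := rfl
        rw [h1, h2, hf1 b, sub_self]
        exact ⟨by simpa using hx b, Submodule.zero_mem _⟩
      · obtain ⟨h1, h2⟩ := ih hl
        have hlen : 1 ≤ l.length := List.length_pos_iff.2 hl
        have h3 : ((gc f l : Sˣ) : S) - 1 ∈ A.F l.length := by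
          have := (A.F l.length).add_mem (anti' A (Nat.le_succ _) h2) h1
          simpa using this
        have hb : (f b : S) - 1 ∈ A.F 1 := by rw [hf1]; exact hx b
        rw [rc_append x l hl, gc_append f l hl, List.length_append, List.length_singleton]
        refine ⟨cm_mem A h1 (hx b), ?_⟩
        have h4 := comm_sub A hlen h3 hb
        have h5 := cm_mem A h2 (hx b)
        have h6 := (A.F (l.length + 1 + 1)).add_mem h4 h5
        have h7 : ((⁅gc f l, f b⁆ : Sˣ) : S) - 1 - cm (rc x l) (x b) =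
            (((⁅gc f l, f b⁆ : Sˣ) : S) - 1 - cm (((gc f l : Sˣ) : S) - 1) ((f b : S) - 1)) +
              cm (((gc f l : Sˣ) : S) - 1 - rc x l) (x b) := by
          rw [hf1 b]
          unfold cm
          noncomm_ring
        rw [h7]
        exact h6
  exact fun w hw => (key w hw).2

end H60.LZ
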